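import Mathlib

/-!
# Edit distance: definition by single-character operations, and by alignments
-/

set_option autoImplicit false

namespace Pool.Agent.Q288.Edit

variable {α : Type*}

/-- `Step s t`: the string `t` arises from `s` by a single-character insertion, deletion or
substitution. -/
inductive Step : List α → List α → Prop
  | ins (x y : List α) (a : α) : Step (x ++ y) (x ++ a :: y)
  | del (x y : List α) (a : α) : Step (x ++ a :: y) (x ++ y)
  | sub (x y : List α) (a b : α) : Step (x ++ a :: y) (x ++ b :: y)

/-- `Steps k s t`: the string `t` arises from `s` by `k` single-character operations. -/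
inductive Steps : ℕ → List α → List α → Prop
  | refl (s : List α) : Steps 0 s s
  | tail (k : ℕ) (s t u : List α) : Steps k s t → Step t u → Steps (k + 1) s u

/-- The edit distance: the least number of single-character insertions, deletions and
substitutions turning `s` into `t`. -/
noncomputable def edit (s t : List α) : ℕ := sInf {k | Steps k s t}

/-- Alignments of cost at most `k`. -/
inductive Ed : ℕ → List α → List α → Prop
  | nil (k : ℕ) : Ed k [] []
  | cons (k : ℕ) (a : α) (s t : List α) : Ed k s t → Ed k (a :: s) (a :: t)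
  | sub (k : ℕ) (a b : α) (s t : List α) : Ed k s t → Ed (k + 1) (a :: s) (b :: t)
  | ins (k : ℕ) (b : α) (s t : List α) : Ed k s t → Ed (k + 1) s (b :: t)
  | del (k : ℕ) (a : α) (s t : List α) : Ed k s t → Ed (k + 1) (a :: s) t

theorem Ed.mono {k l : ℕ} {s t : List α} (h : Ed k s t) (hkl : k ≤ l) : Ed l s t := by
  induction h generalizing l with
  | nil k => exact Ed.nil l
  | cons k a s t _ ih => exact Ed.cons l a s t (ih hkl)
  | sub k a b s t _ ih =>
    obtain ⟨m, rfl⟩ : ∃ m, l = m + 1 := ⟨l - 1, by omega⟩
    exact Ed.sub m a b s t (ih (by omega))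
  | ins k b s t _ ih =>
    obtain ⟨m, rfl⟩ : ∃ m, l = m + 1 := ⟨l - 1, by omega⟩
    exact Ed.ins m b s t (ih (by omega))
  | del k a s t _ ih =>
    obtain ⟨m, rfl⟩ : ∃ m, l = m + 1 := ⟨l - 1, by omega⟩
    exact Ed.del m a s t (ih (by omega))

theorem Ed.refl (k : ℕ) (s : List α) : Ed k s s := by
  induction s with
  | nil => exact Ed.nil k
  | cons a s ih => exact Ed.cons k a s s ih

theorem ed_nil_left {k : ℕ} {t : List α} : Ed k [] t ↔ t.length ≤ k := by
  induction t generalizing k with
  | nil => exact ⟨fun _ => Nat.zero_le _, fun _ => Ed.nil k⟩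
  | cons b t ih =>
    constructor
    · intro h
      cases h with
      | ins k b s t h => simpa using ih.1 h
    · intro h
      obtain ⟨m, rfl⟩ : ∃ m, k = m + 1 := ⟨k - 1, by simp at h; omega⟩
      exact Ed.ins m b [] t (ih.2 (by simpa using h))

theorem ed_nil_right {k : ℕ} {s : List α} : Ed k s [] ↔ s.length ≤ k := by
  induction s generalizing k with
  | nil => exact ⟨fun _ => Nat.zero_le _, fun _ => Ed.nil k⟩
  | cons b t ih =>
    constructor
    · intro h
      cases h with
      | del k b s t h => simpa using ih.1 h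
    · intro h
      obtain ⟨m, rfl⟩ : ∃ m, k = m + 1 := ⟨k - 1, by simp at h; omega⟩
      exact Ed.del m b t [] (ih.2 (by simpa using h))

theorem ed_zero_cons {a b : α} {s t : List α} :
    Ed 0 (a :: s) (b :: t) ↔ (a = b ∧ Ed 0 s t) := by
  constructor
  · intro h
    cases h with
    | cons k a s t h => exact ⟨rfl, h⟩
  · rintro ⟨rfl, h⟩
    exact Ed.cons 0 a s t h

theorem ed_succ_cons {k : ℕ} {a b : α} {s t : List α} :
    Ed (k + 1) (a :: s) (b :: t) ↔ (a = b ∧ Ed (k + 1) s t) ∨
      Ed k s t ∨ Ed k (a :: s) t ∨ Ed k s (b :: t) := by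
  constructor
  · intro h
    cases h with
    | cons k a s t h => exact Or.inl ⟨rfl, h⟩
    | sub k a b s t h => exact Or.inr (Or.inl h)
    | ins k b s t h => exact Or.inr (Or.inr (Or.inl h))
    | del k a s t h => exact Or.inr (Or.inr (Or.inr h))
  · rintro (⟨rfl, h⟩ | h | h | h)
    · exact Ed.cons _ a s t h
    · exact Ed.sub _ a b s t h
    · exact Ed.ins _ b _ t h
    · exact Ed.del _ a s _ h

/-- Single steps, inductively. -/
inductive Step' : List α → List α → Prop
  | ins (y : List α) (a : α) : Step' y (a :: y)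
  | del (y : List α) (a : α) : Step' (a :: y) y
  | sub (y : List α) (a b : α) : Step' (a :: y) (b :: y)
  | cons (c : α) (x y : List α) : Step' x y → Step' (c :: x) (c :: y)

theorem Step.step' {s t : List α} (h : Step s t) : Step' s t := by
  cases h with
  | ins x y a =>
    induction x with
    | nil => exact Step'.ins y a
    | cons c x ih => exact Step'.cons c _ _ ih
  | del x y a =>
    induction x with
    | nil => exact Step'.del y a
    | cons c x ih => exact Step'.cons c _ _ ih
  | sub x y a b =>
    induction x with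
    | nil => exact Step'.sub y a b
    | cons c x ih => exact Step'.cons c _ _ ih

theorem Ed.step {k : ℕ} {s t u : List α} (h : Ed k s t) (h' : Step' t u) : Ed (k + 1) s u := by
  induction h generalizing u with
  | nil k =>
    cases h' with
    | ins y a => exact Ed.ins _ a _ _ (Ed.nil _)
  | cons k a s t h ih =>
    cases h' with
    | ins y b => exact Ed.ins _ _ _ _ (Ed.cons _ _ _ _ h)
    | del y b => exact Ed.del _ _ _ _ h
    | sub y b c => exact Ed.sub _ _ _ _ _ h
    | cons c x y h' => exact Ed.cons _ _ _ _ (ih h')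
  | sub k a b s t h ih =>
    cases h' with
    | ins y b => exact Ed.ins _ _ _ _ (Ed.sub _ _ _ _ _ h)
    | del y b => exact (Ed.del _ _ _ _ h).mono (by omega)
    | sub y b c => exact (Ed.sub _ _ _ _ _ h).mono (by omega)
    | cons c x y h' => exact Ed.sub _ _ _ _ _ (ih h')
  | ins k b s t h ih =>
    cases h' with
    | ins y b => exact Ed.ins _ _ _ _ (Ed.ins _ _ _ _ h)
    | del y b => exact h.mono (by omega)
    | sub y b c => exact (Ed.ins _ _ _ _ h).mono (by omega)
    | cons c x y h' => exact Ed.ins _ _ _ _ (ih h')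
  | del k a s t h ih => exact Ed.del _ _ _ _ (ih h')

theorem Steps.ed {k : ℕ} {s t : List α} (h : Steps k s t) : Ed k s t := by
  induction h with
  | refl s => exact Ed.refl 0 s
  | tail k s t u _ h' ih => exact ih.step h'.step'

theorem Step.cons {s t : List α} (c : α) (h : Step s t) : Step (c :: s) (c :: t) := by
  cases h with
  | ins x y a => exact Step.ins (c :: x) y a
  | del x y a => exact Step.del (c :: x) y a
  | sub x y a b => exact Step.sub (c :: x) y a b

theorem Steps.cons {k : ℕ} {s t : List α} (c : α) (h : Steps k s t) :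
    Steps k (c :: s) (c :: t) := by
  induction h with
  | refl s => exact Steps.refl _
  | tail k s t u _ h' ih => exact Steps.tail _ _ _ _ ih (h'.cons c)

theorem Steps.head {k : ℕ} {s t u : List α} (h : Step s t) (h' : Steps k t u) :
    Steps (k + 1) s u := by
  induction h' with
  | refl t => exact Steps.tail _ _ _ _ (Steps.refl s) h
  | tail k t u v _ h' ih => exact Steps.tail _ _ _ _ (ih h) h'

theorem Ed.steps {k : ℕ} {s t : List α} (h : Ed k s t) : ∃ j ≤ k, Steps j s t := by
  induction h with
  | nil k => exact ⟨0, Nat.zero_le _, Steps.refl _⟩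
  | cons k a s t _ ih =>
    obtain ⟨j, hj, h⟩ := ih
    exact ⟨j, hj, h.cons a⟩
  | sub k a b s t _ ih =>
    obtain ⟨j, hj, h⟩ := ih
    exact ⟨j + 1, by omega, Steps.tail _ _ _ _ (h.cons a) (Step.sub [] t a b)⟩
  | ins k b s t _ ih =>
    obtain ⟨j, hj, h⟩ := ih
    exact ⟨j + 1, by omega, Steps.tail _ _ _ _ h (Step.ins [] t b)⟩
  | del k a s t _ ih =>
    obtain ⟨j, hj, h⟩ := ih
    exact ⟨j + 1, by omega, Steps.head (Step.del [] s a) h⟩

theorem exists_ed (s t : List α) : ∃ k, Ed k s t := by
  induction s with
  | nil => exact ⟨_, ed_nil_left.2 le_rfl⟩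
  | cons a s ih =>
    obtain ⟨k, h⟩ := ih
    exact ⟨k + 1, Ed.del _ _ _ _ h⟩

/-- The edit distance is at most `r` iff there is an alignment of cost at most `r`. -/
theorem edit_le_iff {r : ℕ} {s t : List α} : edit s t ≤ r ↔ Ed r s t := by
  constructor
  · intro h
    have hne : {k | Steps k s t}.Nonempty := by
      obtain ⟨k, hk⟩ := exists_ed s t
      obtain ⟨j, -, hj⟩ := hk.steps
      exact ⟨j, hj⟩
    have h1 : Steps (edit s t) s t := Nat.sInf_mem hne
    exact h1.ed.mono h
  · intro h
    obtain ⟨j, hj, hs⟩ := h.steps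
    exact (Nat.sInf_le hs).trans hj

end Pool.Agent.Q288.Edit
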