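import Mathlib
import Pool.Agent.Q288.Edit.Basic

/-!
# Balls of the edit distance on binary strings, as bit masks
-/

set_option autoImplicit false

namespace Pool.Agent.Q288.Edit

/-- The index of a binary string. -/
def idx : List Bool → ℕ
  | [] => 0
  | b :: w => (if b then 2 ^ w.length else 0) + idx w

theorem idx_lt (w : List Bool) : idx w < 2 ^ w.length := by
  induction w with
  | nil => simp [idx]
  | cons b w ih =>
    simp only [idx, List.length_cons, pow_succ]
    split_ifs <;> omega

/-- The mask of the strings of length `n + 1` with first letter `a` and tail in `x`, or with first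
letter different from `a` and tail in `y`. -/
def comb (a : Bool) (n x y : ℕ) : ℕ :=
  if a then (x <<< 2 ^ n) ||| y else (y <<< 2 ^ n) ||| x

theorem testBit_or_shift {n x y : ℕ} (hy : y < 2 ^ 2 ^ n) (b : Bool) (w : List Bool)
    (hw : w.length = n) :
    ((x <<< 2 ^ n) ||| y).testBit (idx (b :: w)) = if b then x.testBit (idx w) else
      y.testBit (idx w) := by
  have hlt := idx_lt w
  rw [hw] at hlt
  rw [Nat.testBit_or, Nat.testBit_shiftLeft]
  cases b with
  | true =>
    have h1 : y.testBit (idx (true :: w)) = false := by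
      apply Nat.testBit_lt_two_pow
      refine hy.trans_le (Nat.pow_le_pow_right (by norm_num) ?_)
      simp [idx, hw]
    rw [h1]
    simp [idx, hw]
  | false =>
    have h1 : ¬ 2 ^ n ≤ idx w := by omega
    simp [idx, h1]

theorem testBit_comb {a : Bool} {n x y : ℕ} (hx : x < 2 ^ 2 ^ n) (hy : y < 2 ^ 2 ^ n) (b : Bool)
    (w : List Bool) (hw : w.length = n) :
    (comb a n x y).testBit (idx (b :: w)) = if a = b then x.testBit (idx w) else
      y.testBit (idx w) := by
  unfold comb
  cases a <;> cases b <;> simp [testBit_or_shift hx, testBit_or_shift hy, hw]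

theorem or_shift_lt {n x y : ℕ} (hx : x < 2 ^ 2 ^ n) (hy : y < 2 ^ 2 ^ n) :
    (x <<< 2 ^ n) ||| y < 2 ^ 2 ^ (n + 1) := by
  have h : 2 ^ (n + 1) = 2 ^ n + 2 ^ n := by ring
  rw [h]
  apply Nat.or_lt_two_pow
  · rw [Nat.shiftLeft_eq, pow_add]
    exact Nat.mul_lt_mul_of_pos_right hx (by positivity)
  · exact hy.trans_le (Nat.pow_le_pow_right (by norm_num) (Nat.le_add_left _ _))

theorem comb_lt {a : Bool} {n x y : ℕ} (hx : x < 2 ^ 2 ^ n) (hy : y < 2 ^ 2 ^ n) :
    comb a n x y < 2 ^ 2 ^ (n + 1) := by
  unfold comb
  split_ifs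
  · exact or_shift_lt hx hy
  · exact or_shift_lt hy hx

/-- One more unit of cost. -/
def maskStep (k : ℕ) (F : List Bool → ℕ → ℕ) : List Bool → ℕ → ℕ
  | [], n => if n ≤ k then 2 ^ 2 ^ n - 1 else 0
  | _ :: s, 0 => if s.length + 1 ≤ k then 1 else 0
  | a :: s, n + 1 =>
    comb a n (maskStep k F s n ||| (F s n ||| F (a :: s) n)) (F s n ||| F (a :: s) n) |||
      F s (n + 1)

/-- The mask of the strings of length `n` at distance at most `k` from the string `s`. -/
def mask : ℕ → List Bool → ℕ → ℕ
  | 0 => maskStep 0 fun _ _ => 0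
  | k + 1 => maskStep (k + 1) (mask k)

theorem maskStep_lt (k : ℕ) (F : List Bool → ℕ → ℕ) (hF : ∀ s n, F s n < 2 ^ 2 ^ n)
    (s : List Bool) (n : ℕ) : maskStep k F s n < 2 ^ 2 ^ n := by
  induction s generalizing n with
  | nil =>
    unfold maskStep
    have : 0 < 2 ^ 2 ^ n := by positivity
    split_ifs <;> omega
  | cons a s ih =>
    cases n with
    | zero =>
      unfold maskStep
      split_ifs <;> norm_num
    | succ n =>
      unfold maskStep
      have h1 : F s n ||| F (a :: s) n < 2 ^ 2 ^ n := Nat.or_lt_two_pow (hF _ _) (hF _ _)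
      exact Nat.or_lt_two_pow (comb_lt (Nat.or_lt_two_pow (ih n) h1) h1) (hF _ _)

theorem mask_lt (k : ℕ) (s : List Bool) (n : ℕ) : mask k s n < 2 ^ 2 ^ n := by
  induction k generalizing s n with
  | zero => exact maskStep_lt _ _ (fun _ _ => by positivity) s n
  | succ k ih => exact maskStep_lt _ _ ih s n

theorem testBit_maskStep (k : ℕ) (F : List Bool → ℕ → ℕ) (hF : ∀ s n, F s n < 2 ^ 2 ^ n)
    (Q : List Bool → List Bool → Prop) (hQ : ∀ s w, (F s w.length).testBit (idx w) = true ↔ Q s w)
    (hE : ∀ a b s t, Ed k (a :: s) (b :: t) ↔ (a = b ∧ Ed k s t) ∨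
      Q s t ∨ Q (a :: s) t ∨ Q s (b :: t)) (s w : List Bool) :
    (maskStep k F s w.length).testBit (idx w) = true ↔ Ed k s w := by
  induction s generalizing w with
  | nil =>
    unfold maskStep
    rw [ed_nil_left]
    split_ifs with h
    · rw [Nat.testBit_two_pow_sub_one]
      simp [idx_lt w, h]
    · simp [h]
  | cons a s ih =>
    cases w with
    | nil =>
      unfold maskStep
      rw [ed_nil_right]
      simp only [List.length_nil, List.length_cons, idx]
      split_ifs with h <;> simp [h]
    | cons b w =>
      have hs := ih w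
      rw [hE]
      simp only [List.length_cons]
      unfold maskStep
      have h1 : F s w.length ||| F (a :: s) w.length < 2 ^ 2 ^ w.length :=
        Nat.or_lt_two_pow (hF _ _) (hF _ _)
      have h2 := maskStep_lt k F hF s w.length
      rw [Nat.testBit_or, testBit_comb (Nat.or_lt_two_pow h2 h1) h1 b w rfl, Bool.or_eq_true]
      have h3 := hQ s (b :: w)
      simp only [List.length_cons] at h3
      rw [h3]
      by_cases hab : a = b
      · simp only [hab, if_true, true_and]
        rw [Nat.testBit_or, Nat.testBit_or, Bool.or_eq_true, Bool.or_eq_true, hs, hQ, hQ]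
        tauto
      · simp only [hab, if_false, false_and, false_or]
        rw [Nat.testBit_or, Bool.or_eq_true, hQ, hQ]
        tauto

theorem testBit_mask (k : ℕ) (s w : List Bool) :
    (mask k s w.length).testBit (idx w) = true ↔ Ed k s w := by
  induction k generalizing s w with
  | zero =>
    refine testBit_maskStep 0 (fun _ _ => 0) (fun _ _ => by positivity) (fun _ _ => False)
      (by simp) ?_ s w
    intro a b s t
    rw [ed_zero_cons]
    simp
  | succ k ih =>
    refine testBit_maskStep (k + 1) (mask k) (mask_lt k) (fun s t => Ed k s t) ih ?_ s w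
    intro a b s t
    exact ed_succ_cons

/-- All binary strings of length `n`, in the order of their indices. -/
def strings : ℕ → List (List Bool)
  | 0 => [[]]
  | n + 1 => (strings n).map (false :: ·) ++ (strings n).map (true :: ·)

theorem mem_strings {n : ℕ} {w : List Bool} : w ∈ strings n ↔ w.length = n := by
  induction n generalizing w with
  | zero => simp [strings, List.length_eq_zero_iff]
  | succ n ih =>
    cases w with
    | nil => simp [strings]
    | cons b w => cases b <;> simp [strings, ih]

theorem exists_of_lt {n i : ℕ} (h : i < 2 ^ n) : ∃ w : List Bool, w.length = n ∧ idx w = i := by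
  induction n generalizing i with
  | zero => exact ⟨[], rfl, by simp at h; simp [idx, h]⟩
  | succ n ih =>
    rw [pow_succ] at h
    by_cases hi : i < 2 ^ n
    · obtain ⟨w, hw, hw'⟩ := ih hi
      exact ⟨false :: w, by simp [hw], by simp [idx, hw']⟩
    · obtain ⟨w, hw, hw'⟩ := ih (i := i - 2 ^ n) (by omega)
      refine ⟨true :: w, by simp [hw], ?_⟩
      simp only [idx, hw, if_true, hw']
      omega

end Pool.Agent.Q288.Edit
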